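import Pool.Agent.H49.G.R_seed8.Y957.VK.Stm2

set_option autoImplicit false

/-! Project VK, job BC: from the mean square to almost every parameter. -/

namespace Pool.Agent.Y901.VK

open Finset MeasureTheory Filter Topology
open scoped ENNReal
open Pool.Agent.Y957.VK
open Pool.Agent.H376R2.MR (er)

lemma bc_summable_log : Summable (fun n : ℕ => 1 / ((n : ℝ) * Real.log (2 * n) ^ 2)) := by
  have h0 : ∀ n : ℕ, 0 ≤ 1 / ((n : ℝ) * Real.log (2 * n) ^ 2) := fun n => by positivity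
  rw [← summable_condensed_iff_of_nonneg h0]
  · have h1 : ∀ k : ℕ, (2:ℝ) ^ k * (1 / (((2 ^ k : ℕ) : ℝ) * Real.log (2 * ((2 ^ k : ℕ) : ℝ)) ^ 2)) =
        (1 / Real.log 2 ^ 2) * (1 / (((k + 1 : ℕ) : ℝ)) ^ 2) := by
      intro k
      have e : (2 * ((2 ^ k : ℕ) : ℝ)) = 2 ^ (k + 1) := by push_cast; ring
      rw [e, Real.log_pow]
      have : (0:ℝ) < Real.log 2 := Real.log_pos (by norm_num)
      push_cast
      field_simp
    simp only [h1]
    exact ((summable_nat_add_iff 1).2 (Real.summable_one_div_nat_pow.2 (by norm_num : 1 < 2))).mul_left _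
  · intro m n hm hmn
    have hm0 : (0:ℝ) < m := by exact_mod_cast hm
    have hmn' : (m:ℝ) ≤ n := by exact_mod_cast hmn
    have hm1 : (1:ℝ) ≤ m := by exact_mod_cast hm
    have hl : 0 < Real.log (2 * m) := Real.log_pos (by linarith)
    apply one_div_le_one_div_of_le (by positivity)
    have : Real.log (2 * m) ≤ Real.log (2 * n) := Real.log_le_log (by positivity) (by linarith)
    gcongr

lemma bc_summable (C : ℝ) :
    Summable (fun n : ℕ => C / (((n + 2 : ℕ) : ℝ) * Real.log ((n + 2 : ℕ) : ℝ) ^ 2)) := by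
  have h1 : Summable (fun n : ℕ => 1 / (((n + 2 : ℕ) : ℝ) * Real.log ((n + 2 : ℕ) : ℝ) ^ 2)) := by
    have h2 := ((summable_nat_add_iff 2).2 bc_summable_log).mul_left 4
    refine Summable.of_nonneg_of_le (fun n => by positivity) (fun n => ?_) h2
    have h3 : (2 : ℝ) ≤ ((n + 2 : ℕ) : ℝ) := by
      push_cast
      have : (0 : ℝ) ≤ n := Nat.cast_nonneg n
      linarith
    have h4 : 0 < Real.log ((n + 2 : ℕ) : ℝ) := Real.log_pos (by linarith)
    have h5 : 0 < Real.log (2 * ((n + 2 : ℕ) : ℝ)) := Real.log_pos (by linarith)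
    have h6 : Real.log (2 * ((n + 2 : ℕ) : ℝ)) ≤ 2 * Real.log ((n + 2 : ℕ) : ℝ) := by
      have h7 : Real.log (2 * ((n + 2 : ℕ) : ℝ)) ≤ Real.log (((n + 2 : ℕ) : ℝ) ^ 2) :=
        Real.log_le_log (by positivity) (by nlinarith)
      rwa [Real.log_pow] at h7
    rw [mul_one_div, div_le_div_iff₀ (by positivity) (by positivity)]
    have h8 : Real.log (2 * ((n + 2 : ℕ) : ℝ)) ^ 2 ≤ (2 * Real.log ((n + 2 : ℕ) : ℝ)) ^ 2 :=
      pow_le_pow_left₀ h5.le h6 2
    nlinarith
  refine (h1.mul_left C).congr fun n => ?_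
  rw [mul_one_div]

/-- the deterministic lemma -/
theorem det (S : ℕ → ℂ) (hS : ∀ N, ‖S (N + 1) - S N‖ ≤ 1)
    (hK : ∀ K : ℕ, Summable fun N : ℕ => Real.log N ^ K / (N : ℝ) ^ 3 * ‖S N‖ ^ 2) (k : ℕ) :
    Tendsto (fun N : ℕ => Real.log N ^ k / N * ‖S N‖) atTop (𝓝 0) := by
  have hlogt : Tendsto (fun N : ℕ => Real.log (N : ℝ)) atTop atTop :=
    Real.tendsto_log_atTop.comp tendsto_natCast_atTop_atTop
  have hsum := hK (3 * k + 4)
  have hdiff : ∀ N j : ℕ, ‖S (N + j) - S N‖ ≤ j := by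
    intro N j
    induction j with
    | zero => simp
    | succ j ih =>
      have h1 := hS (N + j)
      have h2 : S (N + (j + 1)) - S N = (S (N + j + 1) - S (N + j)) + (S (N + j) - S N) := by
        rw [← add_assoc]
        ring
      rw [h2]
      refine (norm_add_le _ _).trans ?_
      push_cast
      linarith
  have e1 : ∀ᶠ N : ℕ in atTop, ∑' M : ℕ, (Real.log ((M + N : ℕ) : ℝ) ^ (3 * k + 4) /
      ((M + N : ℕ) : ℝ) ^ 3 * ‖S (M + N)‖ ^ 2) < 1 :=
    (tendsto_sum_nat_add fun N : ℕ => Real.log N ^ (3 * k + 4) / (N : ℝ) ^ 3 * ‖S N‖ ^ 2).eventually_lt_const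
      one_pos
  have e2 : ∀ᶠ N : ℕ in atTop, Real.log (N : ℝ) ^ (k + 1) ≤ 1 / 2 * (N : ℝ) := by
    have h1 := (Real.isLittleO_pow_log_id_atTop (n := k + 1)).bound (show (0 : ℝ) < 1 / 2 by norm_num)
    have h2 := tendsto_natCast_atTop_atTop.eventually h1
    filter_upwards [h2] with N hN
    rw [id, Real.norm_of_nonneg (Nat.cast_nonneg N)] at hN
    exact (le_abs_self _).trans hN
  have e3 : ∀ᶠ N : ℕ in atTop, 200 ≤ Real.log (N : ℝ) := hlogt.eventually_ge_atTop 200
  have e4 : ∀ᶠ N : ℕ in atTop, 1 ≤ N := eventually_ge_atTop 1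
  have main : ∀ᶠ N : ℕ in atTop, ‖S N‖ ≤ N / Real.log N ^ (k + 1) := by
    filter_upwards [e1, e2, e3, e4] with N h1 h2 h3 h4
    by_contra hcon
    push Not at hcon
    obtain ⟨l, hl⟩ : ∃ l, l = Real.log (N : ℝ) := ⟨_, rfl⟩
    rw [← hl] at h2 h3 hcon
    have hN1 : (1 : ℝ) ≤ N := by exact_mod_cast h4
    have hlp : 1 ≤ l ^ (k + 1) := one_le_pow₀ (by linarith)
    have hl0 : 0 < l := by linarith
    obtain ⟨Y, hY⟩ : ∃ Y : ℝ, Y = N / (2 * l ^ (k + 1)) := ⟨_, rfl⟩
    have hY1 : 1 ≤ Y := by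
      rw [hY, le_div_iff₀ (by positivity)]
      linarith
    have hYN : Y ≤ N := by
      rw [hY]
      exact div_le_self (by linarith) (by linarith)
    have h2Y : 2 * Y = N / l ^ (k + 1) := by
      rw [hY]
      field_simp
    rw [← h2Y] at hcon
    obtain ⟨H, hH⟩ : ∃ H : ℕ, H = ⌊Y⌋₊ := ⟨_, rfl⟩
    have hH1 : (H : ℝ) ≤ Y := by
      rw [hH]
      exact Nat.floor_le (by linarith)
    have hH2 : Y / 2 ≤ H := by
      have h5 : Y < H + 1 := by
        rw [hH]
        exact Nat.lt_floor_add_one Y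
      have h6 : (1 : ℝ) ≤ H := by
        have : 1 ≤ H := by
          rw [hH]
          exact Nat.le_floor (by simpa using hY1)
        exact_mod_cast this
      linarith
    have hterm : ∀ j ∈ Finset.range H, l ^ (3 * k + 4) / (8 * (N : ℝ) ^ 3) * Y ^ 2 ≤
        Real.log ((j + N : ℕ) : ℝ) ^ (3 * k + 4) / ((j + N : ℕ) : ℝ) ^ 3 * ‖S (j + N)‖ ^ 2 := by
      intro j hj
      have hjH : (j : ℝ) ≤ H := by exact_mod_cast (Finset.mem_range.1 hj).le
      have h5 : Y ≤ ‖S (j + N)‖ := by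
        have h6 := hdiff N j
        rw [add_comm N j] at h6
        have h7 : ‖S N‖ ≤ ‖S (j + N)‖ + ‖S (j + N) - S N‖ := by
          have := norm_sub_le (S (j + N)) (S (j + N) - S N)
          rwa [sub_sub_cancel] at this
        linarith
      have h6 : l ≤ Real.log ((j + N : ℕ) : ℝ) := by
        rw [hl]
        refine Real.log_le_log (by linarith) ?_
        push_cast
        have : (0 : ℝ) ≤ j := Nat.cast_nonneg j
        linarith
      have h7 : ((j + N : ℕ) : ℝ) ≤ 2 * N := by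
        push_cast
        linarith
      have h8 : (0 : ℝ) < ((j + N : ℕ) : ℝ) := by
        push_cast
        have : (0 : ℝ) ≤ j := Nat.cast_nonneg j
        linarith
      refine mul_le_mul ?_ (pow_le_pow_left₀ (by linarith) h5 2) (by positivity) (by positivity)
      refine div_le_div₀ (by positivity) (pow_le_pow_left₀ hl0.le h6 _) (by positivity) ?_
      calc ((j + N : ℕ) : ℝ) ^ 3 ≤ (2 * (N : ℝ)) ^ 3 := pow_le_pow_left₀ h8.le h7 3
        _ = 8 * (N : ℝ) ^ 3 := by ring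
    have h5 : ∑ j ∈ Finset.range H, l ^ (3 * k + 4) / (8 * (N : ℝ) ^ 3) * Y ^ 2 ≤
        ∑' M : ℕ, (Real.log ((M + N : ℕ) : ℝ) ^ (3 * k + 4) / ((M + N : ℕ) : ℝ) ^ 3 * ‖S (M + N)‖ ^ 2) := by
      refine (Finset.sum_le_sum hterm).trans ?_
      refine ((summable_nat_add_iff N).2 hsum).sum_le_tsum (Finset.range H) (fun M _ => ?_)
      have h9 : 0 ≤ Real.log ((M + N : ℕ) : ℝ) := Real.log_natCast_nonneg _
      positivity
    rw [Finset.sum_const, Finset.card_range, nsmul_eq_mul] at h5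
    have h6 : l / 128 ≤ (H : ℝ) * (l ^ (3 * k + 4) / (8 * (N : ℝ) ^ 3) * Y ^ 2) := by
      calc l / 128 = Y / 2 * (l ^ (3 * k + 4) / (8 * (N : ℝ) ^ 3) * Y ^ 2) := by
            rw [hY]
            have h7 : l ^ (3 * k + 4) = l * (l ^ (k + 1)) ^ 3 := by ring
            rw [h7]
            field_simp
            norm_num
        _ ≤ _ := mul_le_mul_of_nonneg_right hH2 (by positivity)
    linarith
  have hz : Tendsto (fun N : ℕ => (Real.log (N : ℝ))⁻¹) atTop (𝓝 0) := hlogt.inv_tendsto_atTop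
  refine squeeze_zero' (Eventually.of_forall fun N => ?_) ?_ hz
  · have h9 : 0 ≤ Real.log (N : ℝ) := Real.log_natCast_nonneg _
    positivity
  · filter_upwards [main, e3, e4] with N h1 h3 h4
    have hN1 : (1 : ℝ) ≤ N := by exact_mod_cast h4
    have hl0 : 0 < Real.log (N : ℝ) := by linarith
    calc Real.log N ^ k / N * ‖S N‖ ≤ Real.log N ^ k / N * (N / Real.log N ^ (k + 1)) :=
          mul_le_mul_of_nonneg_left h1 (by positivity)
      _ = (Real.log (N : ℝ))⁻¹ := by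
          rw [pow_succ]
          field_simp

/-- E3 -/
theorem bc : S_BC := by
  intro Ω _ m _ g hgm hg1 hneg
  have h1 : ∀ᵐ ω ∂m, ∀ K : ℕ, Summable fun N : ℕ =>
      Real.log N ^ K / (N : ℝ) ^ 3 * ‖∑ n ∈ Finset.Icc 1 N, g ω n‖ ^ 2 := by
    rw [ae_all_iff]
    intro K
    obtain ⟨C, hC, hC2⟩ := hneg 0 (K + 2)
    obtain ⟨F, hF⟩ : ∃ F : ℕ → Ω → ℝ≥0∞, F = fun N ω =>
      ENNReal.ofReal (Real.log ((N + 2 : ℕ) : ℝ) ^ K / ((N + 2 : ℕ) : ℝ) ^ 3) *
        ‖∑ n ∈ Finset.Icc 1 (N + 2), g ω n‖ₑ ^ 2 := ⟨_, rfl⟩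
    have hFm : ∀ N, Measurable (F N) := by
      intro N
      rw [hF]
      refine Measurable.const_mul (Measurable.pow_const (Measurable.enorm ?_) 2) _
      exact Finset.measurable_sum _ fun n _ => hgm n
    have hFi : ∀ N, ∫⁻ ω, F N ω ∂m ≤
        ENNReal.ofReal (C / (((N + 2 : ℕ) : ℝ) * Real.log ((N + 2 : ℕ) : ℝ) ^ 2)) := by
      intro N
      have h2 := hC2 (N + 2) 0 (by omega) (by simp)
      have h3 : ∀ ω, ∑ n ∈ Finset.Icc 1 (N + 2), g ω n * er 0 (Real.log n) =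
          ∑ n ∈ Finset.Icc 1 (N + 2), g ω n := by
        intro ω
        refine Finset.sum_congr rfl fun n _ => ?_
        simp [er]
      simp only [h3] at h2
      have hN2 : (2 : ℝ) ≤ ((N + 2 : ℕ) : ℝ) := by
        push_cast
        have : (0 : ℝ) ≤ N := Nat.cast_nonneg N
        linarith
      have hl0 : 0 < Real.log ((N + 2 : ℕ) : ℝ) := Real.log_pos (by linarith)
      rw [hF]
      rw [lintegral_const_mul _ (Measurable.pow_const (Measurable.enorm
        (Finset.measurable_sum _ fun n _ => hgm n)) 2)]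
      refine (mul_le_mul_right h2 _).trans ?_
      rw [← ENNReal.ofReal_mul (by positivity)]
      refine ENNReal.ofReal_le_ofReal (le_of_eq ?_)
      rw [pow_add]
      field_simp
    have hfin : ∫⁻ ω, ∑' N, F N ω ∂m ≠ ⊤ := by
      rw [lintegral_tsum fun N => (hFm N).aemeasurable]
      refine ne_of_lt (lt_of_le_of_lt (ENNReal.tsum_le_tsum hFi) ?_)
      exact (bc_summable C).tsum_ofReal_lt_top
    have hae := ae_lt_top (Measurable.tsum hFm) hfin
    filter_upwards [hae] with ω hω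
    rw [← summable_nat_add_iff 2]
    refine (ENNReal.summable_toReal hω.ne).congr fun N => ?_
    have hl0 : 0 ≤ Real.log ((N + 2 : ℕ) : ℝ) := Real.log_natCast_nonneg _
    rw [hF]
    simp only
    rw [ENNReal.toReal_mul, ENNReal.toReal_pow, toReal_enorm, ENNReal.toReal_ofReal (by positivity)]
  filter_upwards [h1] with ω hω
  intro K
  refine det (fun N => ∑ n ∈ Finset.Icc 1 N, g ω n) (fun N => ?_) hω K
  rw [Finset.sum_Icc_succ_top (by omega), add_sub_cancel_left]
  exact hg1 ω (N + 1)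

end Pool.Agent.Y901.VK
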